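import Pool.Agent.W300.FT.Stm

set_option autoImplicit false

/-!
# COV: every walk is a chain of some copy
-/

namespace Pool.Agent.W864.FT
open MeasureTheory ProbabilityTheory Pool.Agent.W300.FT Filter

noncomputable section

theorem coin_singleton (b : Bool) : coin {b} = 1 / 2 := by
  cases b <;> simp [coin]

theorem coin_prob : IsProbabilityMeasure coin := by
  constructor
  simp [coin, ENNReal.inv_two_add_inv_two]

variable {V : Type}

theorem box (I : Finset (V × K)) (b : V × K → Bool) :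
    PC (V × K) {ω | ∀ e ∈ I, ω e = b e} = (1 / 2) ^ I.card := by
  have := coin_prob
  have h1 : {ω : V × K → Bool | ∀ e ∈ I, ω e = b e} =
      Set.pi (I : Set (V × K)) (fun e => {b e}) := by
    ext ω
    simp [Set.mem_pi]
  rw [h1, PC, Measure.infinitePi_pi]
  · simp only [coin_singleton, Finset.prod_const]
  · intro i _
    exact measurableSet_singleton _

theorem box_meas (I : Finset (V × K)) (b : V × K → Bool) :
    MeasurableSet {ω : V × K → Bool | ∀ e ∈ I, ω e = b e} := by
  have h1 : {ω : V × K → Bool | ∀ e ∈ I, ω e = b e} =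
      ⋂ e ∈ I, {ω : V × K → Bool | ω e = b e} := by
    ext ω
    simp
  rw [h1]
  refine Finset.measurableSet_biInter I fun e _ => ?_
  have h2 : Measurable fun ω : V × K → Bool => ω e := measurable_pi_apply e
  exact h2 (measurableSet_singleton (b e))

theorem indep_box (I : ℕ → Finset (V × K)) (hI : ∀ c d, c ≠ d → Disjoint (I c) (I d))
    (b : V × K → Bool) :
    iIndepSet (fun c => {ω : V × K → Bool | ∀ e ∈ I c, ω e = b e}) (PC (V × K)) := by
  classical
  rw [iIndepSet_iff_meas_biInter fun c => box_meas (I c) b]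
  intro s
  have h1 : (⋂ c ∈ s, {ω : V × K → Bool | ∀ e ∈ I c, ω e = b e}) =
      {ω | ∀ e ∈ s.biUnion I, ω e = b e} := by
    ext ω
    simp only [Set.mem_iInter, Set.mem_ofPred_eq, Finset.mem_biUnion]
    constructor
    · rintro h e ⟨c, hc, he⟩
      exact h c hc e he
    · intro h c hc e he
      exact h e ⟨c, hc, he⟩
  rw [h1, box]
  simp_rw [box]
  rw [Finset.card_biUnion, Finset.prod_pow_eq_pow_sum]
  intro c _ d _ hcd
  exact hI c d hcd

theorem psi_zero (G : SimpleGraph V) (ω : V × K → Bool) (v : V) (c : ℕ × ℕ) (j : ℕ) :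
    Psi G ω v (c, j, 0) = ω (v, (c, j, 0)) := by
  simp [Psi]

open Classical in
theorem psi_one (G : SimpleGraph V) (ω : V × K → Bool) (v : V) (c : ℕ × ℕ) (j : ℕ) :
    Psi G ω v (c, j, 1) = decide (et G ω c j v) := by
  simp [Psi]

theorem cov (hm : S_MEAS) : S_COV := by
  classical
  intro V G hV h3 n γ hγ
  have := coin_prob
  have hPsi : Measurable (Psi G) := (hm V G ∅ hV).1
  have hev : ∀ (v : V) (k : K), MeasurableSet {x : V → K → Bool | x v k = true} := by
    intro v k
    have h0 : Measurable fun x : V → K → Bool => x v k :=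
      (measurable_pi_apply k).comp (measurable_pi_apply v)
    exact h0 (measurableSet_singleton true)
  have hset : MeasurableSet {x : V → K → Bool | ∃ c' : ℕ, Mx G x (n, c') γ} := by
    rw [Set.ofPred_exists]
    refine MeasurableSet.iUnion fun c' => ?_
    have h1 : {x : V → K → Bool | Mx G x (n, c') γ} = ⋂ j : ℕ, ⋂ _ : j < n + 2,
        ({x : V → K → Bool | G.Adj (γ j) (γ (j + 1))} ∩
          ({x | x (γ j) ((n, c'), j, 0) = true} ∩ ({x | x (γ (j + 1)) ((n, c'), j, 0) = true} ∩
          ({x | x (γ j) ((n, c'), j, 1) = true} ∩ {x | x (γ (j + 1)) ((n, c'), j, 1) = true})))) := by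
      ext x
      simp only [Mx, Set.mem_ofPred_eq, Set.mem_iInter, Set.mem_inter_iff]
    rw [h1]
    refine MeasurableSet.iInter fun j => MeasurableSet.iInter fun _ => ?_
    exact (MeasurableSet.const _).inter ((hev _ _).inter ((hev _ _).inter
      ((hev _ _).inter (hev _ _))))
  rw [muX, ae_map_iff hPsi.aemeasurable hset]
  have hfin : ∀ v, (G.neighborSet v).Finite := fun v =>
    Set.finite_of_ncard_ne_zero (by rw [h3 v]; norm_num)
  obtain ⟨Nf, hNf⟩ : ∃ Nf : V → Finset V, ∀ v u, u ∈ Nf v ↔ G.Adj v u :=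
    ⟨fun v => (hfin v).toFinset, fun v u => by simp⟩
  obtain ⟨I, hI⟩ : ∃ I : ℕ → Finset (V × K), I = fun c => (Finset.range (n + 2)).biUnion
      fun j => (Nf (γ j) ∪ Nf (γ (j + 1))).image fun u => (u, ((n, c), j, 0)) := ⟨_, rfl⟩
  obtain ⟨b, hb⟩ : ∃ b : V × K → Bool,
      b = fun e => decide (e.1 = γ e.2.2.1 ∨ e.1 = γ (e.2.2.1 + 1)) := ⟨_, rfl⟩
  have hdis : ∀ c d, c ≠ d → Disjoint (I c) (I d) := by
    intro c d hcd
    rw [Finset.disjoint_left]
    intro e hec hed
    rw [hI] at hec hed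
    simp only [Finset.mem_biUnion, Finset.mem_image] at hec hed
    obtain ⟨_, _, _, _, rfl⟩ := hec
    obtain ⟨_, _, _, _, h⟩ := hed
    simp only [Prod.mk.injEq] at h
    exact hcd h.2.1.2.symm
  have hind := indep_box I hdis b
  obtain ⟨B, hB⟩ : ∃ B : ℕ, ∀ c, (I c).card ≤ B := by
    refine ⟨∑ j ∈ Finset.range (n + 2), (Nf (γ j) ∪ Nf (γ (j + 1))).card, fun c => ?_⟩
    rw [hI]
    exact Finset.card_biUnion_le.trans (Finset.sum_le_sum fun j _ => Finset.card_image_le)
  have hsum : ∑' c, PC (V × K) {ω | ∀ e ∈ I c, ω e = b e} = ⊤ := by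
    have h1 : ∑' _ : ℕ, ((1 / 2 : ENNReal) ^ B) = ⊤ :=
      ENNReal.tsum_const_eq_top_of_ne_zero (by
        apply pow_ne_zero
        simp)
    rw [eq_top_iff, ← h1]
    refine ENNReal.tsum_le_tsum fun c => ?_
    rw [box]
    exact pow_le_pow_right_of_le_one' (by simp) (hB c)
  have : IsProbabilityMeasure (PC (V × K)) := by unfold PC; infer_instance
  have hlim := measure_limsup_eq_one (fun c => box_meas (I c) b) hind hsum
  have hmem : ∀ᵐ ω ∂(PC (V × K)),
      ω ∈ limsup (fun c => {ω : V × K → Bool | ∀ e ∈ I c, ω e = b e}) atTop := by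
    have h1 : MeasurableSet (limsup (fun c => {ω : V × K → Bool | ∀ e ∈ I c, ω e = b e}) atTop) :=
      MeasurableSet.measurableSet_limsup fun c => box_meas (I c) b
    exact (mem_ae_iff_prob_eq_one h1).mpr hlim
  filter_upwards [hmem] with ω hω
  rw [mem_limsup_iff_frequently_mem] at hω
  obtain ⟨c, hc⟩ := hω.exists
  refine ⟨c, fun j hj => ?_⟩
  have hj' : j < n + 2 := hj
  have hadj := hγ j hj'
  have hval : ∀ u, (G.Adj (γ j) u ∨ G.Adj (γ (j + 1)) u) →
      ω (u, ((n, c), j, 0)) = decide (u = γ j ∨ u = γ (j + 1)) := by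
    intro u hu
    have h1 : (u, ((n, c), j, 0)) ∈ I c := by
      rw [hI]
      simp only [Finset.mem_biUnion, Finset.mem_image, Finset.mem_range, Finset.mem_union, hNf]
      exact ⟨j, hj', u, hu, rfl⟩
    have h2 := hc _ h1
    rw [hb] at h2
    exact h2
  have e1 : ω (γ j, ((n, c), j, 0)) = true := by
    rw [hval _ (Or.inr hadj.symm)]
    simp
  have e2 : ω (γ (j + 1), ((n, c), j, 0)) = true := by
    rw [hval _ (Or.inl hadj)]
    simp
  refine ⟨hadj, ?_, ?_, ?_, ?_⟩
  · rw [psi_zero]; exact e1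
  · rw [psi_zero]; exact e2
  · rw [psi_one, decide_eq_true_iff]
    refine ⟨γ (j + 1), ⟨hadj, e2⟩, ?_⟩
    rintro u ⟨hu, hωu⟩
    rw [hval u (Or.inl hu), decide_eq_true_iff] at hωu
    rcases hωu with rfl | h
    · exact absurd hu (G.loopless.irrefl _)
    · exact h
  · rw [psi_one, decide_eq_true_iff]
    refine ⟨γ j, ⟨hadj.symm, e1⟩, ?_⟩
    rintro u ⟨hu, hωu⟩
    rw [hval u (Or.inr hu), decide_eq_true_iff] at hωu
    rcases hωu with h | rfl
    · exact h
    · exact absurd hu (G.loopless.irrefl _)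

end

end Pool.Agent.W864.FT
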